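import Pool.Agent.W108.OVS.Exp

/-!
The algebra `AA` is flexible.
-/

namespace Pool.Agent.W108.OVS

open Polynomial Pool.Agent.W485

noncomputable section

/-! ### Step 1: generic points -/

/-- The monomials as elements of the algebra. -/
def tA (n : G) (h : ∀ i, 0 ≤ co i n) : AA := mkA (tt n) (tt_mem h)

lemma pz_one : pz 1 = 1 := rfl

lemma x_tA_ne (x : AA →ₐ[ℂ] ℂ) (h1 : x x1 ≠ 0) (h2 : x x2 ≠ 0) (h3 : x x3 ≠ 0)
    (n : G) (h : sg n 1 ∈ A) : x (mkA (sg n 1) h) ≠ 0 := by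
  intro h0
  obtain ⟨p, q, r, p', q', r', he⟩ := red n 1 h
  have e1 := congrArg x he
  rw [map_mul, h0, zero_mul, pz_one, one_mul, map_mul, map_mul, map_pow, map_pow, map_pow] at e1
  exact mul_ne_zero (mul_ne_zero (pow_ne_zero _ h1) (pow_ne_zero _ h2)) (pow_ne_zero _ h3) e1.symm

lemma Dk_mono (i : Fin 4) (n : G) (h : sg n 1 ∈ A) (k : ℤ) (hk : co i n = k) (h' : sg (kap i + n) 1 ∈ A) :
    Dk i (mkA (sg n 1) h) = (k : ℂ) • mkA (sg (kap i + n) 1) h' := by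
  apply inc_inj
  rw [inc_Dk, inc_mkA, DkR_sg, derivative_one, mul_zero, zero_add, map_smul, inc_mkA, smul_sg,
    cc_eq_of i n k hk]

lemma Dk_mono_zero (i : Fin 4) (n : G) (h : sg n 1 ∈ A) (hk : co i n = 0) :
    Dk i (mkA (sg n 1) h) = 0 := by
  apply inc_inj
  rw [inc_Dk, inc_mkA, DkR_sg, derivative_one, mul_zero, zero_add, map_zero,
    cc_eq_of i n 0 hk, Int.cast_zero, zero_smul, sg_zero]

lemma generic (x : AA →ₐ[ℂ] ℂ) (h1 : x x1 ≠ 0) (h2 : x x2 ≠ 0) (h3 : x x3 ≠ 0) :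
    tangentSpace x ≤ vals x := by
  have m01 : sg (kap 0 + g1) 1 ∈ A := tt_mem (by decide)
  have m02 : sg (kap 0 + g2) 1 ∈ A := tt_mem (by decide)
  have m11 : sg (kap 1 + g1) 1 ∈ A := tt_mem (by decide)
  have m23 : sg (kap 2 + g3) 1 ∈ A := tt_mem (by decide)
  have d01 : Dk 0 x1 = ((1 : ℤ) : ℂ) • mkA (sg (kap 0 + g1) 1) m01 :=
    Dk_mono 0 g1 _ 1 rfl m01
  have d02 : Dk 0 x2 = ((1 : ℤ) : ℂ) • mkA (sg (kap 0 + g2) 1) m02 :=
    Dk_mono 0 g2 _ 1 rfl m02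
  have d03 : Dk 0 x3 = 0 := Dk_mono_zero 0 g3 _ rfl
  have d11 : Dk 1 x1 = ((1 : ℤ) : ℂ) • mkA (sg (kap 1 + g1) 1) m11 :=
    Dk_mono 1 g1 _ 1 rfl m11
  have d12 : Dk 1 x2 = 0 := Dk_mono_zero 1 g2 _ rfl
  have d13 : Dk 1 x3 = 0 := Dk_mono_zero 1 g3 _ rfl
  have d21 : Dk 2 x1 = 0 := Dk_mono_zero 2 g1 _ rfl
  have d22 : Dk 2 x2 = 0 := Dk_mono_zero 2 g2 _ rfl
  have d23 : Dk 2 x3 = ((1 : ℤ) : ℂ) • mkA (sg (kap 2 + g3) 1) m23 :=
    Dk_mono 2 g3 _ 1 rfl m23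
  have m4 : sg (four + 0) 1 ∈ A := tt_mem (by decide)
  have dz0 : D0 zA = mkA (sg (four + 0) 1) m4 := by
    apply inc_inj
    rw [inc_D0]
    change D0R (sg 0 X) = _
    rw [D0R_sg, derivative_X, inc_mkA]
  have hD0mono : ∀ (n : G) (h : sg n 1 ∈ A), D0 (mkA (sg n 1) h) = 0 := by
    intro n h
    apply inc_inj
    rw [inc_D0, inc_mkA, D0R_sg, derivative_one, sg_zero, map_zero]
  have e01 : D0 x1 = 0 := hD0mono g1 _
  have e02 : D0 x2 = 0 := hD0mono g2 _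
  have e03 : D0 x3 = 0 := hD0mono g3 _
  have n11 : x (mkA (sg (kap 1 + g1) 1) m11) ≠ 0 := x_tA_ne x h1 h2 h3 _ _
  have n02 : x (mkA (sg (kap 0 + g2) 1) m02) ≠ 0 := x_tA_ne x h1 h2 h3 _ _
  have n23 : x (mkA (sg (kap 2 + g3) 1) m23) ≠ 0 := x_tA_ne x h1 h2 h3 _ _
  have n4 : x (mkA (sg (four + 0) 1) m4) ≠ 0 := x_tA_ne x h1 h2 h3 _ _
  intro δ hδ
  set b := x (mkA (sg (kap 0 + g2) 1) m02) with hb
  set b' := x (mkA (sg (kap 0 + g1) 1) m01) with hb'
  set a := x (mkA (sg (kap 1 + g1) 1) m11) with ha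
  set c := x (mkA (sg (kap 2 + g3) 1) m23) with hc
  set e := x (mkA (sg (four + 0) 1) m4) with he
  set β := δ x2 / b with hβ
  set γ := δ x3 / c with hγ
  set α := (δ x1 - β * b') / a with hα
  set ε := (δ zA - β * x (Dk 0 zA) - α * x (Dk 1 zA) - γ * x (Dk 2 zA)) / e with hε
  set v0 : AA →ₗ[ℂ] ℂ := x.toLinearMap.comp (D0 : AA →ₗ[ℂ] AA) with hv0
  set w0 : AA →ₗ[ℂ] ℂ := x.toLinearMap.comp (Dk 0 : AA →ₗ[ℂ] AA) with hw0
  set w1 : AA →ₗ[ℂ] ℂ := x.toLinearMap.comp (Dk 1 : AA →ₗ[ℂ] AA) with hw1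
  set w2 : AA →ₗ[ℂ] ℂ := x.toLinearMap.comp (Dk 2 : AA →ₗ[ℂ] AA) with hw2
  have hT : ∀ D : VF AA, x.toLinearMap.comp (D : AA →ₗ[ℂ] AA) ∈ tangentSpace x := by
    intro D f g
    change x (D (f * g)) = x f * x (D g) + x g * x (D f)
    rw [Derivation.leibniz]
    simp only [smul_eq_mul, map_add, map_mul]
  have hv0' : v0 ∈ vals x := Submodule.subset_span ⟨D0, D0_lnd, rfl⟩
  have hw0' : w0 ∈ vals x := Submodule.subset_span ⟨Dk 0, Dk_lnd 0, rfl⟩
  have hw1' : w1 ∈ vals x := Submodule.subset_span ⟨Dk 1, Dk_lnd 1, rfl⟩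
  have hw2' : w2 ∈ vals x := Submodule.subset_span ⟨Dk 2, Dk_lnd 2, rfl⟩
  have key : δ - (ε • v0 + β • w0 + α • w1 + γ • w2) = 0 := by
    have hmem : δ - (ε • v0 + β • w0 + α • w1 + γ • w2) ∈ tangentSpace x := by
      refine Submodule.sub_mem _ hδ (Submodule.add_mem _ (Submodule.add_mem _
        (Submodule.add_mem _ ?_ ?_) ?_) ?_)
      · exact Submodule.smul_mem _ _ (hT D0)
      · exact Submodule.smul_mem _ _ (hT (Dk 0))
      · exact Submodule.smul_mem _ _ (hT (Dk 1))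
      · exact Submodule.smul_mem _ _ (hT (Dk 2))
    refine leibniz_eq_zero x _ hmem h1 h2 h3 ?_ ?_ ?_ ?_
    · change δ zA - (ε * x (D0 zA) + β * x (Dk 0 zA) + α * x (Dk 1 zA) + γ * x (Dk 2 zA)) = 0
      rw [dz0, ← he, hε]
      field_simp
      ring
    · change δ x1 - (ε * x (D0 x1) + β * x (Dk 0 x1) + α * x (Dk 1 x1) + γ * x (Dk 2 x1)) = 0
      rw [e01, d01, d11, d21, map_zero, map_smul, map_smul, ← hb', ← ha, hα]
      simp only [Int.cast_one, smul_eq_mul, one_mul, mul_zero]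
      field_simp
      ring
    · change δ x2 - (ε * x (D0 x2) + β * x (Dk 0 x2) + α * x (Dk 1 x2) + γ * x (Dk 2 x2)) = 0
      rw [e02, d02, d12, d22, map_zero, map_smul, ← hb, hβ]
      simp only [Int.cast_one, smul_eq_mul, one_mul, mul_zero]
      field_simp
      ring
    · change δ x3 - (ε * x (D0 x3) + β * x (Dk 0 x3) + α * x (Dk 1 x3) + γ * x (Dk 2 x3)) = 0
      rw [e03, d03, d13, d23, map_zero, map_smul, ← hc, hγ]
      simp only [Int.cast_one, smul_eq_mul, one_mul, mul_zero]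
      field_simp
      ring
  rw [sub_eq_zero] at key
  rw [key]
  refine Submodule.add_mem _ (Submodule.add_mem _ (Submodule.add_mem _ ?_ ?_) ?_) ?_
  · exact Submodule.smul_mem _ _ hv0'
  · exact Submodule.smul_mem _ _ hw0'
  · exact Submodule.smul_mem _ _ hw1'
  · exact Submodule.smul_mem _ _ hw2'

/-! ### Step 3: arbitrary points -/

/-! Finite checks. -/

lemma f1 : ∀ i : Fin 4, i + 1 ≠ i := by decide
lemma f2 : ∀ i : Fin 4, i + 1 + 1 ≠ i := by decide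
lemma f3 : ∀ i : Fin 4, i + 2 ≠ i := by decide
lemma f4 : ∀ i : Fin 4, i + 2 + 1 ≠ i := by decide
lemma f5 : ∀ i j : Fin 4, j = i ∨ j = i + 1 ∨ j = i + 2 ∨ j = i + 3 := by decide
lemma f6 : ∀ i : Fin 4, kap i + pr i = 3 • pr (i + 1) + 2 • pr (i + 2) := by decide
lemma f7 : ∀ i : Fin 4, kap i + pr (i + 3) = 2 • pr (i + 1) + 3 • pr (i + 2) := by decide
lemma f8 : ∀ i : Fin 4, co i (pr i) = 1 := by decide
lemma f9 : ∀ i : Fin 4, co i (pr (i + 3)) = 1 := by decide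
lemma f10 : ∀ i : Fin 4, co i (pr (i + 1)) = 0 := by decide
lemma f11 : ∀ i : Fin 4, co i (pr (i + 2)) = 0 := by decide

/-- The four generators `t_i t_{i+1}`. -/
def T (i : Fin 4) : AA := mkA (tt (pr i)) (pr_mem i)

lemma sq_mem (j : Fin 4) : sg (-(2 • pr j)) (l j * l (j + 1)) ∈ A := by
  rw [sg_mem]
  intro i
  have h : (i = j ∧ cw (co i (-(2 • pr j))) = 1) ∨ (i = j + 1 ∧ cw (co i (-(2 • pr j))) = 1) ∨
      cw (co i (-(2 • pr j))) = 0 := by revert i j; decide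
  rcases h with ⟨h1, h2⟩ | ⟨h1, h2⟩ | h2
  · rw [h2, pow_one, h1]; exact Dvd.intro _ rfl
  · rw [h2, pow_one, h1]; exact Dvd.intro_left _ rfl
  · rw [h2, pow_zero]; exact one_dvd _

lemma x_pz (x : AA →ₐ[ℂ] ℂ) (P : ℂ[X]) : x (pz P) = P.eval (x zA) := by
  rw [pz_eq, ← Polynomial.aeval_algHom_apply, Polynomial.coe_aeval_eq_eval]

lemma T_sq (x : AA →ₐ[ℂ] ℂ) (j : Fin 4) :
    x (T j) ^ 2 * x (mkA _ (sq_mem j)) = (x zA - y j) * (x zA - y (j + 1)) := by
  have h : T j ^ 2 * mkA _ (sq_mem j) = pz (l j * l (j + 1)) := by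
    apply inc_inj
    rw [map_mul, map_pow]
    change tt (pr j) ^ 2 * sg (-(2 • pr j)) (l j * l (j + 1)) = sg 0 (l j * l (j + 1))
    rw [tt_pow, sg_mul, one_mul, add_neg_cancel]
  have h2 := congrArg x h
  rw [map_mul, map_pow, x_pz, eval_mul] at h2
  rw [h2]
  unfold l
  rw [eval_sub, eval_sub, eval_X, eval_C, eval_C]

lemma T_rel (i : Fin 4) : T i * T (i + 2) = T (i + 1) * T (i + 3) := by
  apply inc_inj
  rw [map_mul, map_mul]
  change tt (pr i) * tt (pr (i + 2)) = tt (pr (i + 1)) * tt (pr (i + 3))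
  rw [tt_mul, tt_mul]
  have : pr i + pr (i + 2) = pr (i + 1) + pr (i + 3) := by revert i; decide
  rw [this]

theorem all_T (x : AA →ₐ[ℂ] ℂ) (h : ∀ j, x (T j) ≠ 0) : tangentSpace x ≤ vals x :=
  generic x (h 0) (h 3) (h 2)

theorem flexible_AA : Pool.Agent.W485.Flexible Pool.Agent.W485.AA := by
  intro x
  change tangentSpace x ≤ vals x
  by_cases hx : ∀ j, x (T j) ≠ 0
  · exact all_T x hx
  · push Not at hx
    obtain ⟨j, hj⟩ := hx
    -- the point lies over some `y i`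
    have hz : ∀ j, x (T j) = 0 → x zA = y j ∨ x zA = y (j + 1) := by
      intro j hj
      have h := T_sq x j
      rw [hj, zero_pow two_ne_zero, zero_mul] at h
      rcases mul_eq_zero.1 h.symm with h | h
      · left; exact sub_eq_zero.1 h
      · right; exact sub_eq_zero.1 h
    obtain ⟨i, hi⟩ : ∃ i, x zA = y i := by
      rcases hz j hj with h | h
      · exact ⟨_, h⟩
      · exact ⟨_, h⟩
    have hn : ∀ k, k ≠ i → k + 1 ≠ i → x (T k) ≠ 0 := by
      intro k h1 h2 h0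
      rcases hz k h0 with h | h
      · rw [hi] at h; exact h1 (y_inj h).symm
      · rw [hi] at h; exact h2 (y_inj h).symm
    have hn1 : x (T (i + 1)) ≠ 0 := hn _ (f1 i) (f2 i)
    have hn2 : x (T (i + 2)) ≠ 0 := hn _ (f3 i) (f4 i)
    have hrel : x (T i) * x (T (i + 2)) = x (T (i + 1)) * x (T (i + 3)) := by
      rw [← map_mul, T_rel, map_mul]
    have hj4 : j = i ∨ j = i + 1 ∨ j = i + 2 ∨ j = i + 3 := f5 i j
    have h0 : x (T i) = 0 := by
      rcases hj4 with h | h | h | h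
      · rw [← h]; exact hj
      · rw [h] at hj; exact absurd hj hn1
      · rw [h] at hj; exact absurd hj hn2
      · rw [h] at hj
        rw [hj, mul_zero] at hrel
        exact (mul_eq_zero.1 hrel).resolve_right hn2
    have h3 : x (T (i + 3)) = 0 := by
      rw [h0, zero_mul] at hrel
      exact (mul_eq_zero.1 hrel.symm).resolve_left hn1
    -- the two monomials
    have hM0 : kap i + pr i = 3 • pr (i + 1) + 2 • pr (i + 2) := f6 i
    have hM3 : kap i + pr (i + 3) = 2 • pr (i + 1) + 3 • pr (i + 2) := f7 i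
    have e0 : Dk i (T i) = T (i + 1) ^ 3 * T (i + 2) ^ 2 := by
      apply inc_inj
      rw [inc_Dk, map_mul, map_pow, map_pow]
      change DkR i (sg (pr i) 1) = tt (pr (i + 1)) ^ 3 * tt (pr (i + 2)) ^ 2
      have hc : co i (pr i) = 1 := f8 i
      rw [DkR_sg, derivative_one, mul_zero, zero_add, cc_eq_of i _ 1 hc, Int.cast_one, one_smul,
        hM0, tt_pow, tt_pow, tt_mul]
    have e3 : Dk i (T (i + 3)) = T (i + 1) ^ 2 * T (i + 2) ^ 3 := by
      apply inc_inj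
      rw [inc_Dk, map_mul, map_pow, map_pow]
      change DkR i (sg (pr (i + 3)) 1) = tt (pr (i + 1)) ^ 2 * tt (pr (i + 2)) ^ 3
      have hc : co i (pr (i + 3)) = 1 := f9 i
      rw [DkR_sg, derivative_one, mul_zero, zero_add, cc_eq_of i _ 1 hc, Int.cast_one, one_smul,
        hM3, tt_pow, tt_pow, tt_mul]
    have e1 : Dk i (T (i + 1)) = 0 := Dk_mono_zero i _ _ (f10 i)
    have e2 : Dk i (T (i + 2)) = 0 := Dk_mono_zero i _ _ (f11 i)
    have epow : ∀ (f : AA) (k : ℕ), Dk i f = 0 → Dk i (f ^ k) = 0 := by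
      intro f k hf
      rw [Derivation.leibniz_pow, hf, smul_zero, smul_zero]
    have e0' : Dk i (Dk i (T i)) = 0 := by
      rw [e0, Derivation.leibniz, epow _ _ e1, epow _ _ e2, smul_zero, smul_zero, add_zero]
    have e3' : Dk i (Dk i (T (i + 3))) = 0 := by
      rw [e3, Derivation.leibniz, epow _ _ e1, epow _ _ e2, smul_zero, smul_zero, add_zero]
    have hne : ∀ j, (x.comp (exE (Dk i) (Dk_lnd i) 1).toAlgHom) (T j) ≠ 0 := by
      intro j
      have hj4 : j = i ∨ j = i + 1 ∨ j = i + 2 ∨ j = i + 3 := f5 i j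
      change x (ex (Dk i) (Dk_lnd i) 1 (T j)) ≠ 0
      rcases hj4 with rfl | rfl | rfl | rfl
      · rw [ex_of_two _ _ _ _ e0', one_smul, e0, map_add, h0, zero_add, map_mul, map_pow, map_pow]
        exact mul_ne_zero (pow_ne_zero _ hn1) (pow_ne_zero _ hn2)
      · rw [ex_of_two _ _ _ _ (by rw [e1, map_zero]), one_smul, e1, add_zero]
        exact hn1
      · rw [ex_of_two _ _ _ _ (by rw [e2, map_zero]), one_smul, e2, add_zero]
        exact hn2
      · rw [ex_of_two _ _ _ _ e3', one_smul, e3, map_add, h3, zero_add, map_mul, map_pow, map_pow]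
        exact mul_ne_zero (pow_ne_zero _ hn1) (pow_ne_zero _ hn2)
    exact vals_move (exE (Dk i) (Dk_lnd i) 1) x (all_T _ hne)

end

end Pool.Agent.W108.OVS
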