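import Pool.Agent.W485.Ext

/-!
Exponentials of locally nilpotent derivations.
-/

namespace Pool.Agent.W108.OVS

open Polynomial Pool.Agent.W485

noncomputable section

section General

variable {B : Type} [CommRing B] [Algebra ℂ B]

lemma iter_add (D : VF B) (n : ℕ) (f g : B) :
    (⇑D)^[n] (f + g) = (⇑D)^[n] f + (⇑D)^[n] g := by
  induction n generalizing f g with
  | zero => rfl
  | succ n ih => rw [Function.iterate_succ_apply, map_add, ih]; rfl

lemma iter_smul (D : VF B) (n : ℕ) (c : ℂ) (f : B) :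
    (⇑D)^[n] (c • f) = c • (⇑D)^[n] f := by
  induction n generalizing f with
  | zero => rfl
  | succ n ih => rw [Function.iterate_succ_apply, D.map_smul, ih]; rfl

lemma iter_zero (D : VF B) (n : ℕ) : (⇑D)^[n] (0 : B) = 0 := by
  induction n with
  | zero => rfl
  | succ n ih => rw [Function.iterate_succ_apply, map_zero, ih]

lemma iter_zero_of_le (D : VF B) {k m : ℕ} (hkm : k ≤ m) {F : B}
    (h : (⇑D)^[k] F = 0) : (⇑D)^[m] F = 0 := by
  obtain ⟨d, rfl⟩ := Nat.exists_eq_add_of_le hkm
  rw [add_comm, Function.iterate_add_apply, h, iter_zero]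

lemma iter_mul (D : VF B) (n : ℕ) (a b : B) :
    (⇑D)^[n] (a * b) =
      ∑ ij ∈ Finset.HasAntidiagonal.antidiagonal n, Nat.choose n ij.1 • ((⇑D)^[ij.1] a * (⇑D)^[ij.2] b) := by
  induction n with
  | zero => simp
  | succ n ih =>
    rw [Finset.sum_antidiagonal_choose_succ_nsmul (M := B)
      (fun i j => (⇑D)^[i] a * (⇑D)^[j] b) n]
    rw [Function.iterate_succ_apply', ih, map_sum]
    simp only [map_nsmul, Derivation.leibniz, smul_eq_mul, nsmul_add, Finset.sum_add_distrib,
      Function.iterate_succ_apply']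
    congr 1
    refine Finset.sum_congr rfl fun ij hij => ?_
    rw [n.choose_symm_of_eq_add (Finset.HasAntidiagonal.mem_antidiagonal.1 hij).symm, mul_comm]

/-- The coefficients of the exponential. -/
def ec (D : VF B) (n : ℕ) (f : B) : B := ((n.factorial : ℂ)⁻¹) • (⇑D)^[n] f

lemma ec_add (D : VF B) (n : ℕ) (f g : B) : ec D n (f + g) = ec D n f + ec D n g := by
  unfold ec; rw [iter_add, smul_add]

lemma ec_smul (D : VF B) (n : ℕ) (c : ℂ) (f : B) : ec D n (c • f) = c • ec D n f := by
  unfold ec; rw [iter_smul, smul_comm]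

lemma ec_zero (D : VF B) (f : B) : ec D 0 f = f := by
  unfold ec; simp

lemma ec_one (D : VF B) (f : B) : ec D 1 f = D f := by
  unfold ec; simp

lemma ec_eq_zero (D : VF B) {n : ℕ} {f : B} (h : (⇑D)^[n] f = 0) : ec D n f = 0 := by
  unfold ec; rw [h, smul_zero]

lemma ec_mul (D : VF B) (n : ℕ) (a b : B) :
    ec D n (a * b) = ∑ ij ∈ Finset.HasAntidiagonal.antidiagonal n, ec D ij.1 a * ec D ij.2 b := by
  unfold ec
  rw [iter_mul, Finset.smul_sum]
  refine Finset.sum_congr rfl fun ij hij => ?_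
  rw [Finset.HasAntidiagonal.mem_antidiagonal] at hij
  rw [smul_mul_smul_comm, ← Nat.cast_smul_eq_nsmul ℂ, smul_smul]
  congr 1
  rw [← hij]
  have h := Nat.add_choose_mul_factorial_mul_factorial ij.1 ij.2
  have h1 : ((ij.1.factorial : ℕ) : ℂ) ≠ 0 := by exact_mod_cast Nat.factorial_ne_zero _
  have h2 : ((ij.2.factorial : ℕ) : ℂ) ≠ 0 := by exact_mod_cast Nat.factorial_ne_zero _
  have h3 : (((ij.1 + ij.2).factorial : ℕ) : ℂ) ≠ 0 := by
    exact_mod_cast Nat.factorial_ne_zero _
  have h4 : (((ij.1 + ij.2).choose ij.1 : ℕ) : ℂ) * ((ij.1.factorial : ℕ) : ℂ) *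
      ((ij.2.factorial : ℕ) : ℂ) = (((ij.1 + ij.2).factorial : ℕ) : ℂ) := by
    rw [← Nat.choose_symm_add] at h
    exact_mod_cast h
  rw [← h4]
  have h5 : (((ij.1 + ij.2).choose ij.1 : ℕ) : ℂ) ≠ 0 := by
    intro h0
    rw [h0, zero_mul, zero_mul] at h4
    exact h3 h4.symm
  field_simp

/-- The exponential as a polynomial in the time variable. -/
def Pp (D : VF B) (h : IsLND D) (f : B) : B[X] :=
  ∑ n ∈ Finset.range (Classical.choose (h f)), monomial n (ec D n f)

lemma Pp_coeff (D : VF B) (h : IsLND D) (f : B) (n : ℕ) : (Pp D h f).coeff n = ec D n f := by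
  unfold Pp
  rw [finsetSum_coeff]
  simp only [coeff_monomial]
  rw [Finset.sum_ite_eq' (Finset.range (Classical.choose (h f))) n (fun m => ec D m f)]
  split_ifs with hn
  · rfl
  · symm
    apply ec_eq_zero
    exact iter_zero_of_le D (by rw [Finset.mem_range] at hn; omega) (Classical.choose_spec (h f))

/-- The exponential as an algebra homomorphism to polynomials. -/
def PH (D : VF B) (h : IsLND D) : B →ₐ[ℂ] B[X] where
  toFun := Pp D h
  map_one' := by
    ext n
    rw [Pp_coeff, coeff_one]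
    rcases Nat.eq_zero_or_pos n with rfl | hn
    · rw [if_pos rfl, ec_zero]
    · rw [if_neg hn.ne']
      apply ec_eq_zero
      refine iter_zero_of_le D (k := 1) hn ?_
      rw [Function.iterate_one]
      exact D.map_one_eq_zero
  map_mul' := by
    intro a b
    ext n
    rw [Pp_coeff, coeff_mul, ec_mul]
    exact Finset.sum_congr rfl fun ij _ => by rw [Pp_coeff, Pp_coeff]
  map_zero' := by
    ext n
    rw [Pp_coeff, coeff_zero]
    exact ec_eq_zero _ (iter_zero _ _)
  map_add' := by
    intro a b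
    ext n
    rw [coeff_add, Pp_coeff, Pp_coeff, Pp_coeff, ec_add]
  commutes' := by
    intro r
    ext n
    rw [Pp_coeff, Polynomial.algebraMap_apply, coeff_C]
    rcases Nat.eq_zero_or_pos n with rfl | hn
    · rw [if_pos rfl, ec_zero]
    · rw [if_neg hn.ne']
      apply ec_eq_zero
      refine iter_zero_of_le D (k := 1) hn ?_
      rw [Function.iterate_one]
      exact D.map_algebraMap r

lemma PH_coeff (D : VF B) (h : IsLND D) (f : B) (n : ℕ) : (PH D h f).coeff n = ec D n f :=
  Pp_coeff D h f n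

lemma derivative_PH (D : VF B) (h : IsLND D) (f : B) :
    derivative (PH D h f) = PH D h (D f) := by
  ext n
  rw [coeff_derivative, PH_coeff, PH_coeff]
  unfold ec
  rw [← Function.iterate_succ_apply]
  have h1 : ((n : B) + 1) = algebraMap ℂ B ((n : ℂ) + 1) := by
    rw [map_add, map_natCast, map_one]
  rw [h1, mul_comm, ← Algebra.smul_def, smul_smul]
  congr 1
  rw [Nat.factorial_succ]
  push_cast
  have h2 : ((n.factorial : ℕ) : ℂ) ≠ 0 := by exact_mod_cast Nat.factorial_ne_zero _
  have h3 : (n : ℂ) + 1 ≠ 0 := Nat.cast_add_one_ne_zero n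
  field_simp

/-- The exponential of a locally nilpotent derivation at time `c`. -/
def ex (D : VF B) (h : IsLND D) (c : ℂ) : B →ₐ[ℂ] B :=
  ((Polynomial.aeval (algebraMap ℂ B c) : B[X] →ₐ[B] B).restrictScalars ℂ).comp (PH D h)

lemma ex_apply (D : VF B) (h : IsLND D) (c : ℂ) (f : B) :
    ex D h c f = (PH D h f).eval (algebraMap ℂ B c) := by
  unfold ex
  rw [AlgHom.comp_apply, AlgHom.restrictScalars_apply, Polynomial.coe_aeval_eq_eval]

lemma D_ex (D : VF B) (h : IsLND D) (c : ℂ) (f : B) :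
    D (ex D h c f) = ex D h c (D f) := by
  rw [ex_apply, ex_apply]
  have key : ∀ N : ℕ, (PH D h f).natDegree < N → (PH D h (D f)).natDegree < N →
      D ((PH D h f).eval (algebraMap ℂ B c)) = (PH D h (D f)).eval (algebraMap ℂ B c) := by
    intro N h1 h2
    rw [eval_eq_sum_range' h1, eval_eq_sum_range' h2, map_sum]
    refine Finset.sum_congr rfl fun n _ => ?_
    rw [PH_coeff, PH_coeff, ← map_pow, mul_comm, ← Algebra.smul_def, D.map_smul, mul_comm,
      ← Algebra.smul_def]
    congr 1
    unfold ec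
    rw [D.map_smul, ← Function.iterate_succ_apply, Function.iterate_succ_apply']
  exact key (max (PH D h f).natDegree (PH D h (D f)).natDegree + 1)
    (Nat.lt_succ_of_le (le_max_left _ _)) (Nat.lt_succ_of_le (le_max_right _ _))

lemma iter_ex (D : VF B) (h : IsLND D) (c : ℂ) (n : ℕ) (f : B) :
    (⇑D)^[n] (ex D h c f) = ex D h c ((⇑D)^[n] f) := by
  induction n generalizing f with
  | zero => rfl
  | succ n ih => rw [Function.iterate_succ_apply, D_ex, ih]; rfl

lemma iter_derivative_PH (D : VF B) (h : IsLND D) (n : ℕ) (f : B) :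
    derivative^[n] (PH D h f) = PH D h ((⇑D)^[n] f) := by
  induction n generalizing f with
  | zero => rfl
  | succ n ih => rw [Function.iterate_succ_apply, derivative_PH, ih]; rfl

lemma PH_ex (D : VF B) (h : IsLND D) (c : ℂ) (f : B) :
    PH D h (ex D h c f) = taylor (algebraMap ℂ B c) (PH D h f) := by
  ext n
  rw [PH_coeff, taylor_coeff]
  unfold ec
  rw [iter_ex, ex_apply, ← iter_derivative_PH]
  have h1 : derivative^[n] (PH D h f) = n.factorial • hasseDeriv n (PH D h f) := by
    rw [← factorial_smul_hasseDeriv]; rfl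
  rw [h1, eval_smul, ← Nat.cast_smul_eq_nsmul ℂ, smul_smul, inv_mul_cancel₀, one_smul]
  exact_mod_cast Nat.factorial_ne_zero _

lemma ex_add (D : VF B) (h : IsLND D) (c s : ℂ) (f : B) :
    ex D h s (ex D h c f) = ex D h (s + c) f := by
  rw [ex_apply, PH_ex, taylor_eval, ← map_add, ← ex_apply]

lemma ex_zero (D : VF B) (h : IsLND D) (f : B) : ex D h 0 f = f := by
  rw [ex_apply, map_zero, ← coeff_zero_eq_eval_zero, PH_coeff, ec_zero]

/-- The exponential as an automorphism. -/
def exE (D : VF B) (h : IsLND D) (c : ℂ) : B ≃ₐ[ℂ] B :=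
  AlgEquiv.ofAlgHom (ex D h c) (ex D h (-c))
    (by
      refine AlgHom.ext fun f => ?_
      rw [AlgHom.comp_apply, ex_add, add_neg_cancel, ex_zero]; rfl)
    (by
      refine AlgHom.ext fun f => ?_
      rw [AlgHom.comp_apply, ex_add, neg_add_cancel, ex_zero]; rfl)

lemma exE_apply (D : VF B) (h : IsLND D) (c : ℂ) (f : B) : exE D h c f = ex D h c f := rfl

/-- Conjugation of a derivation by an automorphism. -/
def conj (φ : B ≃ₐ[ℂ] B) (D : VF B) : VF B :=
  Derivation.mk' (φ.toLinearMap.comp ((D : B →ₗ[ℂ] B).comp φ.symm.toLinearMap)) (by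
    intro a b
    change φ (D (φ.symm (a * b))) = a • φ (D (φ.symm b)) + b • φ (D (φ.symm a))
    rw [map_mul, Derivation.leibniz]
    simp only [smul_eq_mul, map_add, map_mul, AlgEquiv.apply_symm_apply])

lemma conj_apply (φ : B ≃ₐ[ℂ] B) (D : VF B) (f : B) : conj φ D f = φ (D (φ.symm f)) := rfl

lemma conj_iter (φ : B ≃ₐ[ℂ] B) (D : VF B) (n : ℕ) (f : B) :
    (⇑(conj φ D))^[n] f = φ ((⇑D)^[n] (φ.symm f)) := by
  induction n generalizing f with
  | zero => exact (φ.apply_symm_apply f).symm
  | succ n ih =>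
    rw [Function.iterate_succ_apply, conj_apply, ih, AlgEquiv.symm_apply_apply,
      Function.iterate_succ_apply]

lemma conj_lnd (φ : B ≃ₐ[ℂ] B) {D : VF B} (h : IsLND D) : IsLND (conj φ D) := by
  intro f
  obtain ⟨n, hn⟩ := h (φ.symm f)
  exact ⟨n, by rw [conj_iter, hn, map_zero]⟩

/-- The span of the values of the locally nilpotent derivations at `x`. -/
def vals (x : B →ₐ[ℂ] ℂ) : Submodule ℂ (B →ₗ[ℂ] ℂ) :=
  Submodule.span ℂ {δ : B →ₗ[ℂ] ℂ | ∃ D : VF B, IsLND D ∧
    δ = x.toLinearMap.comp (D : B →ₗ[ℂ] B)}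

lemma vals_move (φ : B ≃ₐ[ℂ] B) (x : B →ₐ[ℂ] ℂ)
    (h : tangentSpace (x.comp φ.toAlgHom) ≤ vals (x.comp φ.toAlgHom)) :
    tangentSpace x ≤ vals x := by
  intro δ hδ
  have h1 : δ.comp φ.toLinearMap ∈ tangentSpace (x.comp φ.toAlgHom) := by
    intro f g
    change δ (φ (f * g)) = x (φ f) * δ (φ g) + x (φ g) * δ (φ f)
    rw [map_mul]
    exact hδ _ _
  have h2 := h h1
  have h3 : ∀ ε ∈ vals (x.comp φ.toAlgHom), ε.comp φ.symm.toLinearMap ∈ vals x := by
    intro ε hε
    unfold vals at hε
    induction hε using Submodule.span_induction with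
    | mem ε h =>
      obtain ⟨D, hD, rfl⟩ := h
      refine Submodule.subset_span ⟨conj φ D, conj_lnd φ hD, ?_⟩
      refine LinearMap.ext fun f => ?_
      rfl
    | zero =>
      rw [LinearMap.zero_comp]
      exact Submodule.zero_mem _
    | add a b _ _ ha hb =>
      rw [LinearMap.add_comp]
      exact Submodule.add_mem _ ha hb
    | smul c a _ ha =>
      rw [LinearMap.smul_comp]
      exact Submodule.smul_mem _ c ha
  have h4 := h3 _ h2
  have h5 : (δ.comp φ.toLinearMap).comp φ.symm.toLinearMap = δ := by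
    refine LinearMap.ext fun f => ?_
    change δ (φ (φ.symm f)) = δ f
    rw [φ.apply_symm_apply]
  rwa [h5] at h4

lemma ex_of_two (D : VF B) (h : IsLND D) (c : ℂ) (f : B) (hf : D (D f) = 0) :
    ex D h c f = f + c • D f := by
  have h1 : PH D h f = C f + C (D f) * X := by
    ext n
    rw [PH_coeff, coeff_add, coeff_C, coeff_C_mul, coeff_X]
    rcases n with _ | _ | n
    · rw [ec_zero]; simp
    · rw [zero_add, ec_one]; simp
    · have : ec D (n + 1 + 1) f = 0 := by
        apply ec_eq_zero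
        refine iter_zero_of_le D (k := 2) (by omega) ?_
        exact hf
      rw [this]; simp
  rw [ex_apply, h1, eval_add, eval_C, eval_mul, eval_C, eval_X, mul_comm, ← Algebra.smul_def]

end General

end

end Pool.Agent.W108.OVS
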